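import Mathlib
import Pool.Agent.H.MP_5efd29_gt.Defs
import Pool.Agent.H.MP_5efd29_gt.Final

/-!
# Two balanced trisections with the same core which are not isotopic

There is a closed connected orientable smooth 4-manifold `X` (the spun lens space `L(5,2)`) with two
balanced `(3; 1, 1, 1)`-trisections `T₁`, `T₂` which have the same core and such that no
diffeomorphism isotopic to the identity carries the pieces of `T₁` onto those of `T₂`, in any
order.  Moreover `T₂` is the image of `T₁` under a diffeomorphism of `X`.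
-/

open Set

namespace Pool.Agent.Results.MP_5efd29_gt.SameCoreNotIsotopic

open Pool.Agent.Tri

theorem result : ∃ (X : Set (ℂ × ℂ × ℂ × ℂ × ℂ)) (T₁ T₂ : Fin 3 → Set (ℂ × ℂ × ℂ × ℂ × ℂ)),
    ClosedOrientableManifold X 4 ∧ IsConnected X ∧
    IsTrisection X T₁ 3 (fun _ => 1) ∧ IsTrisection X T₂ 3 (fun _ => 1) ∧
    (⋂ i, T₁ i) = (⋂ i, T₂ i) ∧
    (∃ Φ, IsDiffeoOf X Φ ∧ ∀ i, T₂ i = Φ '' T₁ i) ∧
    ∀ φ : ℂ × ℂ × ℂ × ℂ × ℂ → ℂ × ℂ × ℂ × ℂ × ℂ, IsotopicToId X φ →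
      ∀ σ : Equiv.Perm (Fin 3), ¬ ∀ i, φ '' T₁ i = T₂ (σ i) :=
  final

end Pool.Agent.Results.MP_5efd29_gt.SameCoreNotIsotopic
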